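import Pool.Agent.H55.QR.Targets

/-!
# Quantum relaxations of k-SAT (MP_0f8dca_lc): PCORE, the list of formulas of the tables

The first part follows `Pool/Agent/H96/KX/CORE.lean`.
-/

set_option autoImplicit false

namespace Pool.Agent.H26.QR

open Matrix Finset H43.PS Pool.Agent.H55.QR
open Pool.Agent.H1.LP (Clause viol Loc Sys supp ip kk)
open Pool.Agent.H96.KX (PDz S_BASEL S_NPR S_FRM prs)

theorem pf_PCORE (hBL : S_BASEL) (hLO : Pool.Agent.H1.LP.S_LOC) (hEN : Pool.Agent.H1.LP.S_ENC)
    (hNP : S_NPR) (hFR : S_FRM) (hD : S_DPR) : S_PCORE := by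
  classical
  intro E l n B hE hkB hBn hEB r δ₀ s hPSB
  have hkE : kk E = 2 * (4 * E + 1) * E ^ 2 := rfl
  have hkE1 : 1 ≤ kk E := by
    rw [hkE]
    have : 0 < 2 * (4 * E + 1) * E ^ 2 := by positivity
    omega
  have hkE2 : E ≤ kk E := by
    rw [hkE]
    nlinarith
  have hB0 : 0 < B := by omega
  obtain ⟨p, hp, hplt, hple, T, Ys, hT, hsupp, hz⟩ := hBL E B (by omega) (by
    rw [← hkE]
    omega)
  have ht1 : 1 ≤ B / E := by
    rw [Nat.le_div_iff_mul_le (by omega)]
    omega
  have h8 : 16 * (B / E) ≤ B := by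
    have h2 : E * (B / E) ≤ B := Nat.mul_div_le B E
    have h3 : 16 * (B / E) ≤ E * (B / E) := Nat.mul_le_mul_right _ hE
    omega
  obtain ⟨S, hS⟩ := hLO p B (4 * E * B) (B / E) (B - 8 * (B / E)) Ys ht1
  have hT' : ∀ i, (T i).card = kk E := hT
  have hrow : ∀ i, Ys.A i ∈ S.La ∧ S.ga (Ys.A i) = Ys.be i := by
    intro i
    apply hS
    calc (supp (Ys.A i)).card ≤ (T i).card := card_le_card (hsupp i)
      _ = kk E := hT' i
      _ ≤ _ := by omega
  obtain ⟨b, hb⟩ : ∃ b, 4 * E + 1 + l = b := ⟨_, rfl⟩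
  simp only [hb] at hBn ⊢
  obtain ⟨asg, dec, cl, hda, hsat, hcard⟩ := hEN n B b hBn
  -- the embedding of the block values
  obtain ⟨io⟩ : Nonempty ((ZMod p × Fin (2 ^ l)) ↪ (Fin b → Bool)) := by
    apply Function.Embedding.nonempty_of_card_le
    rw [Fintype.card_prod, ZMod.card, Fintype.card_fin, Fintype.card_fun, Fintype.card_bool,
      Fintype.card_fin, ← hb, pow_add]
    exact Nat.mul_le_mul_right _ hple
  let al : (Fin B → Fin (2 ^ l) → ZMod p) → Fin B → (Fin b → Bool) → ZMod p := fun a j q =>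
    Function.extend io (fun u : ZMod p × Fin (2 ^ l) => u.1 + a j u.2) (fun _ => 0) q
  have hal' : ∀ a j (u : ZMod p × Fin (2 ^ l)), al a j (io u) = u.1 + a j u.2 := by
    intro a j u
    exact io.injective.extend_apply _ _ _
  have hform := fun a : Fin B → Fin (2 ^ l) → ZMod p =>
    hFR p B (4 * E * B) b n T Ys.A Ys.be (al a) dec cl hsupp hsat
  choose m phi hm hphi hsum hviol using hform
  have hprs : (prs (b := b) T).card = 4 * E * B * 2 ^ (b * kk E) := hNP B (4 * E * B) b (kk E) T hT'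
  have hvlow : ∀ a y, (4 * E - 3) * B ≤ viol (phi a) y := by
    intro a y
    rw [hviol a y]
    exact hz _
  have hvm : ∀ a y, viol (phi a) y ≤ m a := by
    intro a y
    unfold viol
    refine (card_le_univ _).trans ?_
    rw [Fintype.card_fin]
  have hm1 : ∀ a, 1 ≤ m a := by
    intro a
    have := (hvlow a (fun _ => false)).trans (hvm a _)
    have h4 : 1 ≤ (4 * E - 3) * B := Nat.mul_pos (by omega) hB0
    omega
  have hm2 : ∀ a, m a ≤ 4 * E * B * 2 ^ (b * kk E) := by
    intro a
    rw [← hprs]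
    exact hm a
  obtain ⟨Yc, hYc⟩ : ∃ Yc, Fintype.card (Fin B → Fin (2 ^ l) → ZMod p) = Yc := ⟨_, rfl⟩
  have hYpos : 0 < Yc := by
    rw [← hYc]
    exact Fintype.card_pos
  let e : Fin Yc ≃ (Fin B → Fin (2 ^ l) → ZMod p) :=
    (Fintype.equivFinOfCardEq hYc).symm
  refine ⟨Yc, fun a => m (e a), fun a => phi (e a), hYpos, ?_, ?_⟩
  · intro a
    refine ⟨hm1 _, hm2 _, ?_, ?_⟩
    · intro c
      obtain ⟨q, -, hq⟩ := hphi (e a) c
      show (phi (e a) c).card = b * kk E ∧ ((phi (e a) c).image Prod.fst).card = b * kk E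
      rw [hq]
      have := hcard (T q.1) q.2
      rw [hT' q.1] at this
      rw [mul_comm (kk E)] at this
      exact this
    · intro y
      have h5 : ((m (e a) : ℝ) / 2 ^ (b * kk E)) ≤ 4 * E * B := by
        rw [div_le_iff₀ (by positivity)]
        exact_mod_cast hm2 (e a)
      have hE1 : (0 : ℝ) < E := by
        have : 0 < E := by omega
        exact_mod_cast this
      have h6 : (0 : ℝ) ≤ 1 - 1 / (E : ℝ) := by
        have : 1 / (E : ℝ) ≤ 1 := by
          rw [div_le_one hE1]
          have : 1 ≤ E := by omega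
          exact_mod_cast this
        linarith
      calc (1 - 1 / (E : ℝ)) * ((m (e a) : ℝ) / 2 ^ (b * kk E))
          ≤ (1 - 1 / (E : ℝ)) * (4 * E * B) := by gcongr
        _ = (4 * E - 4) * B := by field_simp
        _ ≤ (4 * E - 3) * B := by
            have : (0 : ℝ) ≤ B := Nat.cast_nonneg B
            nlinarith
        _ = (((4 * E - 3) * B : ℕ) : ℝ) := by
            rw [Nat.cast_mul, Nat.cast_sub (by omega)]
            push_cast
            ring
        _ ≤ _ := by exact_mod_cast hvlow (e a) y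
  -- the psd bound
  intro ι _ _ L Sx A de hr hde hδ hL hSx hfac
  obtain ⟨hD1, hD2, hD3, hD4⟩ := hD p B (B - 8 * (B / E)) ((B - 8 * (B / E)) / 2) S
    (Nat.mul_div_le _ _)
  have hval : ∀ (t : Fin B → Fin (2 ^ l) → ZMod p) (g : Fin B → ZMod p) (ω : Fin B → Fin (2 ^ l)),
      viol (phi t) (asg (fun j => io (g j, ω j))) =
        (univ.filter (fun i => ip (Ys.A i) (fun j => g j + t j (ω j)) ≠ Ys.be i)).card := by
    intro t g ω
    rw [hviol, hda]
    have h1 : H1.LP.val (al t) (fun j => io (g j, ω j)) = fun j => g j + t j (ω j) := by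
      funext j
      exact hal' t j (g j, ω j)
    rw [h1]
  have hmain := hPSB p hp hplt hple ι (A.map e.toEmbedding) (fun t => L (e.symm t))
    (fun g ω => Sx (asg (fun j => io (g j, ω j)))) (PDz S)
    (fun z => ((univ.filter (fun i => ip (Ys.A i) z ≠ Ys.be i)).card : ℝ)) (4 * E * B) de
    (by
      intro t ht
      obtain ⟨i, hi, rfl⟩ := mem_map.1 ht
      have h1 : e.symm (e.toEmbedding i) = i := e.symm_apply_apply i
      simp only [h1]
      exact hL i hi)
    (fun g ω => hSx _) hD1 hD2 hD3 (hD4 (4 * E * B) Ys.A Ys.be hrow)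
    (fun z => Nat.cast_nonneg _)
    (by
      intro z
      have h1 : (univ.filter (fun i => ip (Ys.A i) z ≠ Ys.be i)).card ≤ 4 * E * B := by
        refine (card_le_univ _).trans ?_
        rw [Fintype.card_fin]
      exact_mod_cast h1)
    (by
      have h1 : 0 < 4 * E * B := by positivity
      exact_mod_cast h1)
    (by exact_mod_cast hEB) hde hδ hr
    (by
      intro t ht g ω
      obtain ⟨i, hi, rfl⟩ := mem_map.1 ht
      have h1 : e.symm (e.toEmbedding i) = i := e.symm_apply_apply i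
      simp only [h1]
      have h2 := hval (e i) g ω
      have h3 := hfac i hi (asg (fun j => io (g j, ω j)))
      change _ = ((viol (phi (e i)) (asg (fun j => io (g j, ω j))) : ℕ) : ℝ) - de at h3
      rw [h2] at h3
      exact h3.symm)
  have hY0 : (0 : ℝ) < Yc := by exact_mod_cast hYpos
  rw [share, hYc, card_map, div_le_iff₀ hY0] at hmain
  exact hmain

end Pool.Agent.H26.QR
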